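import Mathlib
import Pool.Agent.H21.Grig

namespace Pool.Agent.Results.MP_a9f5dc_al.Quot

open Pool.Agent.H21.Grig

def S2 : Type :=
  PresentedGroup ({FreeGroup.of 0 * FreeGroup.of 1 * (FreeGroup.of 0)⁻¹ * (FreeGroup.of 1)⁻¹ *
    (FreeGroup.of 2 * FreeGroup.of 3 * (FreeGroup.of 2)⁻¹ * (FreeGroup.of 3)⁻¹)} :
      Set (FreeGroup (Fin 4)))

instance : Group S2 := inferInstanceAs (Group (PresentedGroup _))

lemma bcd (w : List Bool) : gen 1 (gen 2 w) = gen 3 w ∧ gen 2 (gen 3 w) = gen 1 w ∧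
    gen 3 (gen 1 w) = gen 2 w := by
  induction w with
  | nil => simp [gen]
  | cons x w ih => cases x <;> simp [gen, ih, gen_invol 0 w]

lemma bc : ev [1] * ev [2] = ev [3] := Subtype.ext (Equiv.ext fun w => (bcd w).1)

lemma sq (i : Fin 4) : ev [i] * ev [i] = 1 := Subtype.ext (by simp [ev, gp_mul])

theorem result : ∃ f : S2 →* G, Function.Surjective f := by
  let x : Fin 4 → G := ![ev [1], ev [2], ev [0], 1]
  have inv : ∀ i, (ev [i])⁻¹ = ev [i] := fun i => inv_eq_of_mul_eq_one_right (sq i)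
  let f : S2 →* G := PresentedGroup.toGroup (f := x) (by
    intro r hr
    rw [Set.mem_singleton_iff] at hr
    subst hr
    simp only [map_mul, map_inv, FreeGroup.lift_apply_of, x, Matrix.cons_val, inv, mul_one,
      inv_one, sq]
    rw [mul_assoc (ev [1] * ev [2]), bc, sq])
  have hf : ∀ i, f (PresentedGroup.of i) = x i := fun i => PresentedGroup.toGroup.of _
  have h1 : ∀ i, ev [i] ∈ f.range := by
    intro i
    fin_cases i
    · exact ⟨_, hf 2⟩
    · exact ⟨_, hf 0⟩
    · exact ⟨_, hf 1⟩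
    · exact bc ▸ f.range.mul_mem ⟨_, hf 0⟩ ⟨_, hf 1⟩
  refine ⟨f, fun g => ?_⟩
  obtain ⟨u, rfl⟩ := ev_surj g
  induction u with
  | nil => exact f.range.one_mem
  | cons i u ih =>
    rw [show i :: u = [i] ++ u from rfl, ev_append]
    exact f.range.mul_mem (h1 i) ih

end Pool.Agent.Results.MP_a9f5dc_al.Quot
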